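import Mathlib
import Pool.Agent.CmSd.Main

/-!
# Self-duality of the direct summands of an object which splits over an extension field

`C` is an `F`-linear category (for the problem: `F = ℚ`, `C = CHM(k)`), `D` a contravariant
functor (for the problem: `D M = (M^∨)(-n)`), `H` an object with `D H ≅ H` (for the problem:
`H = h^n(X)`), `dag` the adjunction `x ↦ φ ∘ D(x) ∘ φ⁻¹` on `End H`.  Over a field extension
`K` of `F` the identity of `H` is a sum of orthogonal idempotents `e i` of `K ⊗ End H` with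
`e i (K ⊗ End H) e i = K e i`, up to a nil ideal `N`, and the dual of the piece `e i` is
isomorphic, up to `N`, to its conjugate by the automorphism `c` of `K`.

Then `D M ≅ M` for every direct summand `M` of `H` in `C`.
-/

namespace Pool.Agent.Results.MP_191b91_ag.SplitSelfDual

open CategoryTheory Opposite TensorProduct

theorem result {F K : Type*} [Field F] [Infinite F] [Field K] [Algebra F K] (c : K ≃ₐ[F] K)
    {C : Type*} [Category C] [Preadditive C] [Linear F C] (D : Cᵒᵖ ⥤ C)
    (H : C) (φ : D.obj (op H) ≅ H) (dag : End H →ₗ[F] End H)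
    (hdag : ∀ x : End H, dag x = φ.inv ≫ D.map (Quiver.Hom.op (x : H ⟶ H)) ≫ φ.hom)
    (N : Ideal (K ⊗[F] End H)) [N.IsTwoSided] (hN : ∀ x ∈ N, IsNilpotent x)
    {ι : Type*} [Fintype ι] (e : ι → K ⊗[F] End H) (he : CompleteOrthogonalIdempotents e)
    (hcorner : ∀ i (x : K ⊗[F] End H), ∃ k : K, e i * x * e i - k • e i ∈ N)
    (hdual : ∀ i, ∃ x y : K ⊗[F] End H, x * y - dag.lTensor K (e i) ∈ N ∧
      y * x - c.toLinearMap.rTensor (End H) (e i) ∈ N)
    (M : C) (s : M ⟶ H) (r : H ⟶ M) (hsr : s ≫ r = 𝟙 M) :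
    Nonempty (D.obj (op M) ≅ M) := by
  have hanti : ∀ x y : End H, dag (x * y) = dag y * dag x := by
    intro x y
    rw [hdag, hdag, hdag, End.mul_def, End.mul_def, op_comp, D.map_comp]
    simp only [Category.assoc, Iso.hom_inv_id_assoc]
  let p : End H := r ≫ s
  have hp : p * p = p := by
    rw [End.mul_def]
    simp only [p, Category.assoc, reassoc_of% hsr]
  obtain ⟨x, y, h⟩ := CmSd.eqv_dag c dag hanti N hN e he hcorner hdual hp
  let s' : D.obj (op M) ⟶ H := D.map r.op ≫ φ.hom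
  let r' : H ⟶ D.obj (op M) := φ.inv ≫ D.map s.op
  have hs' : s' ≫ r' = 𝟙 _ := by
    simp only [s', r', Category.assoc, Iso.hom_inv_id_assoc]
    rw [← D.map_comp, ← op_comp, hsr, op_id, D.map_id]
  have hq : dag p = r' ≫ s' := by
    rw [hdag]
    simp only [p, r', s', op_comp, D.map_comp, Category.assoc]
  have hxy : (y : H ⟶ H) ≫ x = r' ≫ s' := by
    have := h.xy
    rw [End.mul_def, hq] at this
    exact this
  have hyx : (x : H ⟶ H) ≫ y = r ≫ s := by
    have := h.yx
    rw [End.mul_def] at this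
    exact this
  have hpx : (x : H ⟶ H) ≫ (r' ≫ s') = x := by
    have := h.px
    rw [End.mul_def, hq] at this
    exact this
  have hxq : (r ≫ s) ≫ (x : H ⟶ H) = x := by
    have := h.xq
    rw [End.mul_def] at this
    exact this
  refine ⟨⟨s' ≫ y ≫ r, s ≫ x ≫ r', ?_, ?_⟩⟩
  · calc (s' ≫ y ≫ r) ≫ s ≫ x ≫ r' = s' ≫ y ≫ ((r ≫ s) ≫ x) ≫ r' := by
          simp only [Category.assoc]
      _ = s' ≫ (y ≫ x) ≫ r' := by rw [hxq]; simp only [Category.assoc]
      _ = (s' ≫ r') ≫ (s' ≫ r') := by rw [hxy]; simp only [Category.assoc]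
      _ = 𝟙 _ := by rw [hs', Category.comp_id]
  · calc (s ≫ x ≫ r') ≫ s' ≫ y ≫ r = s ≫ (x ≫ (r' ≫ s')) ≫ y ≫ r := by
          simp only [Category.assoc]
      _ = s ≫ (x ≫ y) ≫ r := by rw [hpx]; simp only [Category.assoc]
      _ = (s ≫ r) ≫ (s ≫ r) := by rw [hyx]; simp only [Category.assoc]
      _ = 𝟙 _ := by rw [hsr, Category.comp_id]

end Pool.Agent.Results.MP_191b91_ag.SplitSelfDual
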